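import Mathlib
import Pool.Agent.Lib.MP_29b974_an.Assemble
import Pool.Agent.Lib.MP_29b974_an.Invariant

/-!
MP_29b974_an: a holomorphic function on the unit ball of `ℂ^n`, nonzero at the centre, with radial
limit `0` at almost every point of the unit sphere.
-/

set_option autoImplicit false

open MeasureTheory

namespace Pool.Agent.Results.MP_29b974_an.RadialLimitZero

open Pool.Agent.Lib.MP_29b974_an

/-- The lemma of Borel and Cantelli for the exceptional cones. -/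
lemma ae_cone (n : ℕ) (hn : 1 ≤ n) (G : ℕ → Set (V n))
    (hvol : ∀ j : ℕ, volume {w : W n | T w ∈ G j ∧ ‖T w‖ < (j : ℝ) + 1} ≤
      ENNReal.ofReal ((1 / 2) ^ j)) :
    ∀ᵐ w ∂(volume : Measure (W n)), w ≠ 0 ∧ ∀ᶠ j in Filter.atTop, T w ∉ G j := by
  have : Nonempty (Fin n) := ⟨⟨0, by omega⟩⟩
  have hz : ∀ᵐ w ∂(volume : Measure (W n)), w ≠ 0 := by
    rw [ae_iff]
    simp only [not_not]
    exact measure_singleton (0 : Fin n → ℂ)
  have hbc := ae_eventually_notMem (μ := (volume : Measure (W n)))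
    (s := fun j : ℕ => {w : W n | T w ∈ G j ∧ ‖T w‖ < (j : ℝ) + 1}) (by
      refine ne_top_of_le_ne_top ?_ (ENNReal.tsum_le_tsum hvol)
      rw [← ENNReal.ofReal_tsum_of_nonneg (fun j => by positivity) summable_geometric_two]
      exact ENNReal.ofReal_ne_top)
  filter_upwards [hz, hbc] with w hw0 hwG
  refine ⟨hw0, ?_⟩
  obtain ⟨j0, hj0⟩ := exists_nat_gt ‖T w‖
  filter_upwards [hwG, Filter.eventually_ge_atTop j0] with j hj hj'
  intro hmem
  apply hj
  refine ⟨hmem, ?_⟩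
  have : (j0 : ℝ) ≤ j := by exact_mod_cast hj'
  linarith

/-- The radial limit at a point of the sphere outside almost all cones. -/
lemma radial (n : ℕ) (f : V n → ℂ) (G : ℕ → Set (V n))
    (hcone : ∀ j, ∀ t : ℝ, 0 < t → ∀ z : V n, ((t : ℂ) • z ∈ G j ↔ z ∈ G j))
    (hbd : ∀ k, ∀ z : V n, rr (k + 1) ≤ ‖z‖ → ‖z‖ ≤ rr (k + 2) → z ∉ G k → z ∉ G (k + 1) →
      ‖f z‖ ≤ (1 / 2) ^ k)
    (ζ : V n) (hζ : ‖ζ‖ = 1) (hev : ∀ᶠ j in Filter.atTop, ζ ∉ G j) :
    Filter.Tendsto (fun r : ℝ => f ((r : ℂ) • ζ)) (nhdsWithin 1 (Set.Iio 1)) (nhds 0) := by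
  obtain ⟨J, hJ⟩ := Filter.eventually_atTop.mp hev
  rw [Metric.tendsto_nhds]
  intro ε hε
  obtain ⟨K0, hK0⟩ := exists_pow_lt_of_lt_one hε (show (1 / 2 : ℝ) < 1 by norm_num)
  set K : ℕ := max J K0 with hK
  have hIoo : Set.Ico (rr (K + 1)) 1 ∈ nhdsWithin (1 : ℝ) (Set.Iio 1) :=
    Ico_mem_nhdsLT (rr_lt_one _)
  filter_upwards [hIoo] with r hr
  obtain ⟨k, hk1, hk2, hk3⟩ := exists_between_rr (K + 1) r hr.1 hr.2
  obtain ⟨l, rfl⟩ : ∃ l, k = l + 1 := ⟨k - 1, by omega⟩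
  have hr0 : 0 < r := (rr_pos _).trans_le hr.1
  have hn : ‖(r : ℂ) • ζ‖ = r := by
    rw [norm_smul, Complex.norm_real, Real.norm_eq_abs, abs_of_pos hr0, hζ, mul_one]
  rw [dist_zero_right]
  have hb := hbd l ((r : ℂ) • ζ) (by rw [hn]; exact hk2) (by rw [hn]; exact hk3)
    (by rw [hcone l r hr0]; exact hJ l (by omega))
    (by rw [hcone (l + 1) r hr0]; exact hJ (l + 1) (by omega))
  refine hb.trans_lt (lt_of_le_of_lt ?_ hK0)
  exact pow_le_pow_of_le_one (by norm_num) (by norm_num) (by omega)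

/-- From almost every vector to almost every point of the sphere. -/
lemma ae_sphere (n : ℕ) (hn : 1 ≤ n) (G : ℕ → Set (V n))
    (hcone : ∀ j, ∀ t : ℝ, 0 < t → ∀ z : V n, ((t : ℂ) • z ∈ G j ↔ z ∈ G j))
    (h : ∀ᵐ w ∂(volume : Measure (W n)), w ≠ 0 ∧ ∀ᶠ j in Filter.atTop, T w ∉ G j)
    (μ : Measure (V n)) [μ.IsAddHaarMeasure] :
    ∀ᵐ ζ : Metric.sphere (0 : V n) 1 ∂μ.toSphere, ∀ᶠ j in Filter.atTop, (ζ : V n) ∉ G j := by
  have : Nonempty (Fin n) := ⟨⟨0, by omega⟩⟩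
  -- the measure on `V n`
  let e : W n ≃L[ℝ] V n := (PiLp.continuousLinearEquiv 2 ℝ (fun _ : Fin n => ℂ)).symm
  have he : ∀ w : W n, e w = T w := fun w => rfl
  have hV : ∀ᵐ z ∂μ, ∀ᶠ j in Filter.atTop, z ∉ G j := by
    have h1 : ∀ᵐ z ∂((volume : Measure (W n)).map e), ∀ᶠ j in Filter.atTop, z ∉ G j := by
      have h0 : MeasurableEmbedding (e : W n → V n) := e.toHomeomorph.measurableEmbedding
      rw [h0.ae_map_iff]
      filter_upwards [h] with w hw
      exact hw.2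
    have h2 : Measure.IsAddHaarMeasure ((volume : Measure (W n)).map e) :=
      e.isAddHaarMeasure_map _
    exact (Measure.absolutelyContinuous_isAddHaarMeasure μ _).ae_le h1
  have h3 : ∀ᵐ x : ({0}ᶜ : Set (V n)) ∂(μ.comap (↑)), ∀ᶠ j in Filter.atTop, (x : V n) ∉ G j := by
    exact (ae_restrict_iff_subtype (measurableSet_singleton (0 : V n)).compl
      (p := fun x => ∀ᶠ j in Filter.atTop, x ∉ G j)).mp (ae_restrict_of_ae hV)
  have h4 := (μ.measurePreserving_homeomorphUnitSphereProd).map_eq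
  have h5 : ∀ᵐ p ∂(μ.toSphere.prod (Measure.volumeIoiPow (Module.finrank ℝ (V n) - 1))),
      ∀ᶠ j in Filter.atTop, (p.1 : V n) ∉ G j := by
    rw [← h4, (homeomorphUnitSphereProd (V n)).measurableEmbedding.ae_map_iff]
    filter_upwards [h3] with x hx
    filter_upwards [hx] with j hj
    intro hmem
    apply hj
    have hx0 : (x : V n) ≠ 0 := x.2
    have hpos : 0 < ‖(x : V n)‖⁻¹ := inv_pos.mpr (norm_pos_iff.mpr hx0)
    have h6 : (((homeomorphUnitSphereProd (V n)) x).1 : V n) = ((‖(x : V n)‖⁻¹ : ℝ) : ℂ) • (x : V n) := by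
      rw [homeomorphUnitSphereProd_apply_fst_coe]
      rfl
    rw [h6, hcone j _ hpos] at hmem
    exact hmem
  have h7 := Measure.ae_ae_of_ae_prod h5
  have hne : Filter.NeBot (ae (Measure.volumeIoiPow (Module.finrank ℝ (V n) - 1))) := by
    rw [ae_neBot]
    intro h0
    have h8 := Measure.volumeIoiPow_apply_Iio (Module.finrank ℝ (V n) - 1) ⟨1, Set.mem_Ioi.mpr one_pos⟩
    rw [h0] at h8
    simp only [Measure.coe_zero, Pi.zero_apply, one_pow] at h8
    have h9 : (0 : ℝ) < 1 / (((Module.finrank ℝ (V n) - 1 : ℕ) : ℝ) + 1) := by positivity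
    rw [eq_comm, ENNReal.ofReal_eq_zero] at h8
    linarith
  filter_upwards [h7] with ζ hζ
  exact hζ.exists.choose_spec

/-- For every `n ≥ 1` there is a function `f` on `ℂ^n`, holomorphic in the open Euclidean unit
ball, with `f 0 ≠ 0`, such that `f (r ζ) → 0` as `r → 1-` for almost every point `ζ` of the unit
sphere: with respect to the surface measure, and with respect to every finite Borel measure on the
sphere which is invariant under all unitary maps. -/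
theorem result (n : ℕ) (hn : 1 ≤ n) :
    ∃ f : EuclideanSpace ℂ (Fin n) → ℂ,
      DifferentiableOn ℂ f (Metric.ball (0 : EuclideanSpace ℂ (Fin n)) 1) ∧ f 0 ≠ 0 ∧
      (∀ᵐ ζ : Metric.sphere (0 : EuclideanSpace ℂ (Fin n)) 1
          ∂(volume : Measure (EuclideanSpace ℂ (Fin n))).toSphere,
        Filter.Tendsto (fun r : ℝ => f ((r : ℂ) • (ζ : EuclideanSpace ℂ (Fin n))))
          (nhdsWithin 1 (Set.Iio 1)) (nhds 0)) ∧
      ∀ σ : Measure (EuclideanSpace ℂ (Fin n)), IsFiniteMeasure σ →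
        σ (Metric.sphere (0 : EuclideanSpace ℂ (Fin n)) 1)ᶜ = 0 →
        (∀ U : EuclideanSpace ℂ (Fin n) ≃ₗᵢ[ℂ] EuclideanSpace ℂ (Fin n), σ.map U = σ) →
        ∀ᵐ ζ ∂σ, Filter.Tendsto (fun r : ℝ => f ((r : ℂ) • ζ))
          (nhdsWithin 1 (Set.Iio 1)) (nhds 0) := by
  obtain ⟨f, G, hd, h0, hcone, hvol, hbd⟩ := main_V n
  have h1 : ∀ᵐ ζ : Metric.sphere (0 : EuclideanSpace ℂ (Fin n)) 1
      ∂(volume : Measure (EuclideanSpace ℂ (Fin n))).toSphere,
      Filter.Tendsto (fun r : ℝ => f ((r : ℂ) • (ζ : EuclideanSpace ℂ (Fin n))))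
        (nhdsWithin 1 (Set.Iio 1)) (nhds 0) := by
    filter_upwards [ae_sphere n hn G hcone (ae_cone n hn G hvol) volume] with ζ hζ
    exact radial n f G hcone hbd ζ (by simp) hζ
  refine ⟨f, ?_, h0, h1, ?_⟩
  · intro z hz
    exact (hd z (by simpa using hz)).differentiableWithinAt
  · intro σ hσ hσS hinv
    exact null_invariant n σ hσS hinv
      (fun ζ => Filter.Tendsto (fun r : ℝ => f ((r : ℂ) • ζ))
        (nhdsWithin 1 (Set.Iio 1)) (nhds 0)) h1

end Pool.Agent.Results.MP_29b974_an.RadialLimitZero
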